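import Pool.Agent.Lib.MP_df705a_gt.Mg.G047
import Pool.Agent.Lib.MP_df705a_gt.Mg.G049

/-!
# RL2 parametrix: bounds before the cutoff
-/

open scoped ContDiff InnerProductSpace Matrix Real
open MeasureTheory

noncomputable section

set_option linter.unusedSectionVars false

namespace Pool.Agent.Lib.MP_df705a_gt.RL

variable {X : Type*} [MeasurableSpace X] {P : Measure X} [IsProbabilityMeasure P] {m : ℕ}
  {ρ : ℝ}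

/-- The rate of decay given by `Wp_bd`. -/
def rate (P : Measure X) [IsProbabilityMeasure P] (g : Geo (2 * m)) (ρ : ℝ) : ℝ :=
  (Wp_bd (P := P) g ρ).choose

theorem rate_pos (P : Measure X) [IsProbabilityMeasure P] (g : Geo (2 * m)) (ρ : ℝ) :
    0 < rate P g ρ :=
  (Wp_bd (P := P) g ρ).choose_spec.1

theorem Wp_bd' (g : Geo (2 * m)) (p : PM (Ix m) (2 * m) (Rg P (2 * m) ρ)) (k : ℕ) :
    ∃ Φ : X → ℝ, Mom P Φ ∧ ∀ x z v r, ‖z‖ ≤ ρ → 0 < r →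
      ‖(√r)⁻¹ • v‖ ^ k * ‖Wp g x z r p v‖ ≤ Φ x * gz m (rate P g ρ) v r :=
  (Wp_bd (P := P) g ρ).choose_spec.2 p k

namespace Op

theorem P10_gz_nonneg (m : ℕ) (c : ℝ) (v : V (2 * m)) {r : ℝ} (hr : 0 ≤ r) : 0 ≤ gz m c v r := by
  unfold gz
  positivity

theorem P10_sum {κ E : Type*} [SeminormedAddCommGroup E] {a G : ℝ} (s : Finset κ) {f : κ → E}
    (ha : 0 ≤ a) (Φ : κ → ℝ) (h : ∀ i ∈ s, a * ‖f i‖ ≤ Φ i * G) :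
    a * ‖∑ i ∈ s, f i‖ ≤ (∑ i ∈ s, Φ i) * G := by
  refine (mul_le_mul_of_nonneg_left (norm_sum_le _ _) ha).trans ?_
  rw [Finset.mul_sum, Finset.sum_mul]
  exact Finset.sum_le_sum h

theorem P10_sqrt_le {r : ℝ} (h : r ≤ 1) : √r ≤ 1 := by
  rw [Real.sqrt_le_one]
  exact h

/-- Sum over the weights. -/
theorem P10_weights (g : Geo (2 * m)) (o : Op P m ρ) (s : Finset ℕ) (k : ℕ)
    (T : ℕ → (PM (Ix m) (2 * m) (Rg P (2 * m) ρ) →ₗ[Rg P (2 * m) ρ]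
      PM (Ix m) (2 * m) (Rg P (2 * m) ρ)))
    (hT : ∀ n ∈ s, ∃ Φ : X → ℝ, Mom P Φ ∧ ∀ x z v r, ‖z‖ ≤ ρ → 0 < r → ∀ t : ℝ, |t| ≤ 1 →
      ‖(√r)⁻¹ • v‖ ^ k * ‖Wp g x z r (T n ((o.dat g).PT t n)) v‖ ≤
        Φ x * gz m (rate P g ρ) v r) (q : ℕ) (hq : ∀ n ∈ s, q ≤ n) :
    ∃ Φ : X → ℝ, Mom P Φ ∧ ∀ x z v r, ‖z‖ ≤ ρ → 0 < r → r ≤ 1 → ∀ t : ℝ, |t| ≤ 1 →
      ‖(√r)⁻¹ • v‖ ^ k * ‖∑ n ∈ s, ((√r : ℂ) ^ n) • Wp g x z r (T n ((o.dat g).PT t n)) v‖ ≤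
        Φ x * ((√r) ^ q * gz m (rate P g ρ) v r) := by
  choose! Φ hΦ h using hT
  refine ⟨_, Mom.sum s hΦ, fun x z v r hz hr hr1 t ht => ?_⟩
  refine P10_sum s (by positivity) (fun n => Φ n x) fun n hn => ?_
  have h1 := h n hn x z v r hz hr t ht
  have ha : 0 ≤ ‖(√r)⁻¹ • v‖ ^ k := by positivity
  revert h1 ha
  generalize ‖(√r)⁻¹ • v‖ ^ k = a
  intro h1 ha
  rw [norm_smul, norm_pow, Complex.norm_real, Real.norm_of_nonneg (Real.sqrt_nonneg r),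
    mul_left_comm, mul_left_comm (Φ n x)]
  exact mul_le_mul (pow_le_pow_of_le_one (Real.sqrt_nonneg r) (P10_sqrt_le hr1) (hq n hn))
    h1 (by positivity) (by positivity)

/-- The bound for the terms of the formal solution, uniform in `t`.
PROOF. `PT t n = ∑_b algebraMap (t^b) • pp n b`, `T` is linear: `Wp (T (PT t n)) = ∑_b t^b • Wp (T (pp n b))`
(`Wp_sum`, `Wp_smul_C`), `|t^b| ≤ 1`, `Wp_bd'`, `Mom.sum`. -/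
theorem PT_bd (g : Geo (2 * m)) (o : Op P m ρ) (n k : ℕ)
    (T : PM (Ix m) (2 * m) (Rg P (2 * m) ρ) →ₗ[Rg P (2 * m) ρ]
      PM (Ix m) (2 * m) (Rg P (2 * m) ρ)) :
    ∃ Φ : X → ℝ, Mom P Φ ∧ ∀ x z v r, ‖z‖ ≤ ρ → 0 < r → ∀ t : ℝ, |t| ≤ 1 →
      ‖(√r)⁻¹ • v‖ ^ k * ‖Wp g x z r (T ((o.dat g).PT t n)) v‖ ≤
        Φ x * gz m (rate P g ρ) v r := by
  choose Φ hΦ h using fun b : ℕ => Wp_bd' g (T ((o.dat g).pp n b)) k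
  refine ⟨_, Mom.sum (Finset.range (n + 1)) fun b _ => hΦ b, fun x z v r hz hr t ht => ?_⟩
  have e1 : T ((o.dat g).PT t n) = ∑ b ∈ Finset.range (n + 1),
      algebraMap ℂ (Rg P (2 * m) ρ) ((t : ℂ) ^ b) • T ((o.dat g).pp n b) := by
    rw [PDat.PT, map_sum]
    exact Finset.sum_congr rfl fun b _ => map_smul T _ _
  rw [e1, Wp_sum]
  refine P10_sum _ (by positivity) (fun b => Φ b x) fun b _ => ?_
  have h1 := h b x z v r hz hr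
  have ha : 0 ≤ ‖(√r)⁻¹ • v‖ ^ k := by positivity
  revert h1 ha
  generalize ‖(√r)⁻¹ • v‖ ^ k = a
  intro h1 ha
  rw [Wp_smul_C, norm_smul, norm_pow, Complex.norm_real, Real.norm_eq_abs, mul_left_comm]
  exact (mul_le_of_le_one_left (by positivity) (pow_le_one₀ (abs_nonneg t) ht)).trans h1

/-- `tD` as a linear map. -/
def tDL (g : Geo (2 * m)) (n : ℕ) : PM (Ix m) (2 * m) (Rg P (2 * m) ρ) →ₗ[Rg P (2 * m) ρ]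
    PM (Ix m) (2 * m) (Rg P (2 * m) ρ) :=
  algebraMap ℂ (Rg P (2 * m) ρ) (n / 2) • LinearMap.id
    - algebraMap ℂ (Rg P (2 * m) ρ) (1 / 2) • eulM
    + algebraMap ℂ (Rg P (2 * m) ρ) (1 / 4) • (gXX (hR (P := P) (ρ := ρ) g) • LinearMap.id)
    - algebraMap ℂ (Rg P (2 * m) ρ) ((2 * m : ℕ) / 2) • LinearMap.id

theorem tDL_apply (g : Geo (2 * m)) (n : ℕ) (p : PM (Ix m) (2 * m) (Rg P (2 * m) ρ)) :
    tDL g n p = tD g n p := rfl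

/-- PROOF. `PT_bd` with `T = id`; `(√r)^n ≤ 1`; sum over `n ≤ J`. -/
theorem U_bd (g : Geo (2 * m)) (o : Op P m ρ) (J k : ℕ) :
    ∃ Φ : X → ℝ, Mom P Φ ∧ ∀ x z v r, ‖z‖ ≤ ρ → 0 < r → r ≤ 1 → ∀ t : ℝ, |t| ≤ 1 →
      ‖(√r)⁻¹ • v‖ ^ k * ‖o.U g J t x z r v‖ ≤ Φ x * gz m (rate P g ρ) v r := by
  obtain ⟨Φ, hΦ, h⟩ := P10_weights g o (Finset.range (J + 1)) k (fun _ => LinearMap.id)
    (fun n _ => PT_bd g o n k LinearMap.id) 0 fun n _ => Nat.zero_le n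
  refine ⟨Φ, hΦ, fun x z v r hz hr hr1 t ht => ?_⟩
  have h1 := h x z v r hz hr hr1 t ht
  rw [pow_zero, one_mul] at h1
  exact h1

/-- PROOF. `PT 0 = 1`, `Wp 1 = gs • 1` (`evM_one`): the difference is the sum over `1 ≤ n ≤ J`, `(√r)^n ≤ √r`. -/
theorem U_sub_bd (g : Geo (2 * m)) (o : Op P m ρ) (J : ℕ) :
    ∃ Φ : X → ℝ, Mom P Φ ∧ ∀ x z v r, ‖z‖ ≤ ρ → 0 < r → r ≤ 1 → ∀ t : ℝ, |t| ≤ 1 →
      ‖o.U g J t x z r v - (gs g z v r : ℂ) • (1 : En m)‖ ≤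
        Φ x * (√r * gz m (rate P g ρ) v r) := by
  obtain ⟨Φ, hΦ, h⟩ := P10_weights g o (Finset.Ico 1 (J + 1)) 0 (fun _ => LinearMap.id)
    (fun n _ => PT_bd g o n 0 LinearMap.id) 1 fun n hn => (Finset.mem_Ico.1 hn).1
  refine ⟨Φ, hΦ, fun x z v r hz hr hr1 t ht => ?_⟩
  have h1 := h x z v r hz hr hr1 t ht
  rw [pow_zero, one_mul, pow_one] at h1
  refine le_of_eq_of_le (congrArg norm ?_) h1
  unfold U
  rw [Finset.range_eq_Ico, Finset.sum_eq_sum_Ico_succ_bot (Nat.succ_pos J), pow_zero, one_smul,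
    PDat.PT_zero, Wp, evM_one, add_sub_cancel_left]
  rfl

/-- PROOF. `pd_U`, `PT_bd` with `T = hM (hR g) μ`. -/
theorem pd_U_bd (g : Geo (2 * m)) (o : Op P m ρ) (J k : ℕ) (μ : Fin (2 * m)) :
    ∃ Φ : X → ℝ, Mom P Φ ∧ ∀ x z v r, ‖z‖ ≤ ρ → 0 < r → r ≤ 1 → ∀ t : ℝ, |t| ≤ 1 →
      ‖(√r)⁻¹ • v‖ ^ k * ‖pd μ (o.U g J t x z r) v‖ ≤
        Φ x * ((√r)⁻¹ * gz m (rate P g ρ) v r) := by
  obtain ⟨Φ, hΦ, h⟩ := P10_weights g o (Finset.range (J + 1)) k (fun _ => hM (hR g) μ)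
    (fun n _ => PT_bd g o n k (hM (hR g) μ)) 0 fun n _ => Nat.zero_le n
  refine ⟨Φ, hΦ, fun x z v r hz hr hr1 t ht => ?_⟩
  have h1 := h x z v r hz hr hr1 t ht
  rw [pow_zero, one_mul] at h1
  rw [pd_U g o J t x z v hr μ]
  revert h1
  generalize ‖(√r)⁻¹ • v‖ ^ k = a
  intro h1
  rw [norm_smul, ← Complex.ofReal_inv, Complex.norm_real,
    Real.norm_of_nonneg (inv_nonneg.2 (Real.sqrt_nonneg r)), mul_left_comm, mul_left_comm (Φ x)]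
  exact mul_le_mul_of_nonneg_left h1 (inv_nonneg.2 (Real.sqrt_nonneg r))

/-- PROOF. `PT_bd` with `T = tDL g n`. -/
theorem Ud_bd (g : Geo (2 * m)) (o : Op P m ρ) (J : ℕ) :
    ∃ Φ : X → ℝ, Mom P Φ ∧ ∀ x z v r, ‖z‖ ≤ ρ → 0 < r → r ≤ 1 → ∀ t : ℝ, |t| ≤ 1 →
      ‖o.Ud g J t x z r v‖ ≤ Φ x * (r⁻¹ * gz m (rate P g ρ) v r) := by
  obtain ⟨Φ, hΦ, h⟩ := P10_weights g o (Finset.range (J + 1)) 0 (fun n => tDL g n)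
    (fun n _ => PT_bd g o n 0 (tDL g n)) 0 fun n _ => Nat.zero_le n
  refine ⟨Φ, hΦ, fun x z v r hz hr hr1 t ht => ?_⟩
  have h1 := h x z v r hz hr hr1 t ht
  rw [pow_zero, one_mul, pow_zero, one_mul] at h1
  have e1 : o.Ud g J t x z r v = ((r⁻¹ : ℝ) : ℂ) • ∑ n ∈ Finset.range (J + 1),
      ((√r : ℂ) ^ n) • Wp g x z r (tDL g n ((o.dat g).PT t n)) v := by
    unfold Ud
    rw [Finset.smul_sum, Complex.ofReal_inv]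
    refine Finset.sum_congr rfl fun n _ => ?_
    rw [smul_comm, tDL_apply]
  rw [e1, norm_smul, Complex.norm_real, Real.norm_of_nonneg (inv_nonneg.2 hr.le), mul_left_comm]
  exact mul_le_mul_of_nonneg_left h1 (inv_nonneg.2 hr.le)

theorem P10B_sum_t {t : ℝ} (ht : |t| ≤ 1) (A : Fin 3 → En m) (B : Fin 3 → ℝ)
    (h : ∀ β, ‖A β‖ ≤ B β) : ‖∑ β : Fin 3, ((t : ℂ) ^ (β : ℕ)) • A β‖ ≤ ∑ β, B β := by
  refine (norm_sum_le _ _).trans (Finset.sum_le_sum fun β _ => ?_)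
  rw [norm_smul, norm_pow, Complex.norm_real, Real.norm_eq_abs]
  calc |t| ^ (β : ℕ) * ‖A β‖ ≤ 1 * ‖A β‖ :=
        mul_le_mul_of_nonneg_right (pow_le_one₀ (abs_nonneg t) ht) (norm_nonneg _)
    _ = ‖A β‖ := one_mul _
    _ ≤ B β := h β

theorem P10B_key {c : ℝ} {v : V (2 * m)} {r : ℝ} (hr : 0 < r) (hr1 : r ≤ 1) {J l k : ℕ}
    {a w A B : ℝ} (hw : 0 ≤ w) (hA : 0 ≤ A) (hB : 0 ≤ B) (hlk : J + 1 ≤ l + k)
    (ha : a ≤ A * ‖v‖ ^ k) (hb : ‖(√r)⁻¹ • v‖ ^ k * w ≤ B * gz m c v r) :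
    (√r) ^ l * (a * w) ≤ (A * B) * ((√r) ^ (J + 1) * gz m c v r) := by
  have hs : 0 < √r := Real.sqrt_pos.2 hr
  have hs1 : √r ≤ 1 := Real.sqrt_le_one.2 hr1
  have hG : 0 ≤ gz m c v r := by
    unfold gz
    positivity
  have hvy : ‖v‖ = √r * ‖(√r)⁻¹ • v‖ := by
    rw [norm_smul, norm_inv, Real.norm_of_nonneg hs.le, mul_inv_cancel_left₀ hs.ne']
  rw [hvy, mul_pow] at ha
  calc (√r) ^ l * (a * w) ≤ (√r) ^ l * ((A * ((√r) ^ k * ‖(√r)⁻¹ • v‖ ^ k)) * w) :=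
        mul_le_mul_of_nonneg_left (mul_le_mul_of_nonneg_right ha hw) (by positivity)
    _ = A * (√r) ^ (l + k) * (‖(√r)⁻¹ • v‖ ^ k * w) := by rw [pow_add]; ring
    _ ≤ A * (√r) ^ (l + k) * (B * gz m c v r) :=
        mul_le_mul_of_nonneg_left hb (by positivity)
    _ ≤ A * (√r) ^ (J + 1) * (B * gz m c v r) := by
        apply mul_le_mul_of_nonneg_right _ (by positivity)
        exact mul_le_mul_of_nonneg_left (pow_le_pow_of_le_one hs.le hs1 hlk) hA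
    _ = (A * B) * ((√r) ^ (J + 1) * gz m c v r) := by ring

theorem P10B_t1 (g : Geo (2 * m)) (o : Op P m ρ) (J n : ℕ) (hn : n ≤ J) :
    ∃ Φ : X → ℝ, Mom P Φ ∧ ∀ x z v r, ‖z‖ ≤ ρ → ‖v‖ ≤ 1 → 0 < r → r ≤ 1 → ∀ t : ℝ, |t| ≤ 1 →
      (√r) ^ n * ‖∑ μ, ∑ ν, (rem (J + 1 - n) (hiF (ρ := ρ) (P := P) g μ ν) x z v) •
        Wp g x z r (hM (hR g) μ (hM (hR g) ν ((o.dat g).PT t n))) v‖ ≤
        Φ x * ((√r) ^ (J + 1) * gz m (rate P g ρ) v r) := by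
  have hrem : ∀ μ ν, ∃ Φ : X → ℝ, Mom P Φ ∧ ∀ x z v, ‖z‖ ≤ ρ → ‖v‖ ≤ 1 →
      ‖rem (J + 1 - n) (hiF (ρ := ρ) (P := P) g μ ν) x z v‖ ≤ Φ x * ‖v‖ ^ (J + 1 - n) :=
    fun μ ν => rem_bd _ _
  choose A₁ hA₁ a1 using hrem
  have hW1 : ∀ μ ν, ∃ Φ : X → ℝ, Mom P Φ ∧ ∀ x z v r, ‖z‖ ≤ ρ → 0 < r → ∀ t : ℝ, |t| ≤ 1 →
      ‖(√r)⁻¹ • v‖ ^ (J + 1 - n) * ‖Wp g x z r (hM (hR g) μ (hM (hR g) ν ((o.dat g).PT t n))) v‖ ≤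
        Φ x * gz m (rate P g ρ) v r :=
    fun μ ν => o.PT_bd g n _ (hM (hR g) μ ∘ₗ hM (hR g) ν)
  choose B₁ hB₁ b1 using hW1
  refine ⟨fun x => ∑ μ, ∑ ν, A₁ μ ν x * B₁ μ ν x, Mom.sum Finset.univ fun μ _ =>
    Mom.sum Finset.univ fun ν _ => (hA₁ μ ν).mul (hB₁ μ ν),
    fun x z v r hz hv hr hr1 t ht => ?_⟩
  rw [Finset.sum_mul]
  refine (mul_le_mul_of_nonneg_left (norm_sum_le _ _) (by positivity)).trans ?_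
  rw [Finset.mul_sum]
  refine Finset.sum_le_sum fun μ _ => ?_
  rw [Finset.sum_mul]
  refine (mul_le_mul_of_nonneg_left (norm_sum_le _ _) (by positivity)).trans ?_
  rw [Finset.mul_sum]
  refine Finset.sum_le_sum fun ν _ => ?_
  rw [norm_smul]
  exact P10B_key hr hr1 (norm_nonneg _) ((hA₁ μ ν).nonneg x) ((hB₁ μ ν).nonneg x)
    (by omega) (a1 μ ν x z v hz hv) (b1 μ ν x z v r hz hr t ht)

theorem P10B_t2 (g : Geo (2 * m)) (o : Op P m ρ) (J n : ℕ) (hn : n ≤ J) :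
    ∃ Φ : X → ℝ, Mom P Φ ∧ ∀ x z v r, ‖z‖ ≤ ρ → ‖v‖ ≤ 1 → 0 < r → r ≤ 1 → ∀ t : ℝ, |t| ≤ 1 →
      (√r) ^ (n + 1) * ‖∑ μ, o.remB (J - n) t x z v μ *
        Wp g x z r (hM (hR g) μ ((o.dat g).PT t n)) v‖ ≤
        Φ x * ((√r) ^ (J + 1) * gz m (rate P g ρ) v r) := by
  have hremB : ∀ μ, ∃ Φ : X → ℝ, Mom P Φ ∧ ∀ x z v, ‖z‖ ≤ ρ → ‖v‖ ≤ 1 → ∀ t : ℝ, |t| ≤ 1 →
      ‖o.remB (J - n) t x z v μ‖ ≤ Φ x * ‖v‖ ^ (J - n) := by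
    intro μ
    have h1 : ∀ β : Fin 3, ∃ Φ : X → ℝ, Mom P Φ ∧ ∀ x z v, ‖z‖ ≤ ρ → ‖v‖ ≤ 1 →
        ‖remM (J - n) (o.b β μ) x z v‖ ≤ Φ x * ‖v‖ ^ (J - n) := fun β => remM_bd _ _
    choose Φ hΦ h2 using h1
    refine ⟨fun x => ∑ β, Φ β x, Mom.sum Finset.univ fun β _ => hΦ β,
      fun x z v hz hv t ht => ?_⟩
    rw [Finset.sum_mul]
    exact P10B_sum_t ht _ _ fun β => h2 β x z v hz hv
  choose A₂ hA₂ a2 using hremB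
  have hW2 : ∀ μ, ∃ Φ : X → ℝ, Mom P Φ ∧ ∀ x z v r, ‖z‖ ≤ ρ → 0 < r → ∀ t : ℝ, |t| ≤ 1 →
      ‖(√r)⁻¹ • v‖ ^ (J - n) * ‖Wp g x z r (hM (hR g) μ ((o.dat g).PT t n)) v‖ ≤
        Φ x * gz m (rate P g ρ) v r :=
    fun μ => o.PT_bd g n _ (hM (hR g) μ)
  choose B₂ hB₂ b2 using hW2
  refine ⟨fun x => ∑ μ, A₂ μ x * B₂ μ x, Mom.sum Finset.univ fun μ _ => (hA₂ μ).mul (hB₂ μ),
    fun x z v r hz hv hr hr1 t ht => ?_⟩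
  rw [Finset.sum_mul]
  refine (mul_le_mul_of_nonneg_left (norm_sum_le _ _) (by positivity)).trans ?_
  rw [Finset.mul_sum]
  refine Finset.sum_le_sum fun μ _ => ?_
  refine (mul_le_mul_of_nonneg_left (norm_mul_le (o.remB (J - n) t x z v μ)
    (Wp g x z r (hM (hR g) μ ((o.dat g).PT t n)) v)) (by positivity)).trans ?_
  exact P10B_key hr hr1 (norm_nonneg _) ((hA₂ μ).nonneg x) ((hB₂ μ).nonneg x)
    (by omega) (a2 μ x z v hz hv t ht) (b2 μ x z v r hz hr t ht)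

theorem P10B_t3 (g : Geo (2 * m)) (o : Op P m ρ) (J n : ℕ) (hn : n ≤ J) :
    ∃ Φ : X → ℝ, Mom P Φ ∧ ∀ x z v r, ‖z‖ ≤ ρ → ‖v‖ ≤ 1 → 0 < r → r ≤ 1 → ∀ t : ℝ, |t| ≤ 1 →
      (√r) ^ (n + 2) * ‖o.remC (J - 1 - n) t x z v * Wp g x z r ((o.dat g).PT t n) v‖ ≤
        Φ x * ((√r) ^ (J + 1) * gz m (rate P g ρ) v r) := by
  have hremC : ∃ Φ : X → ℝ, Mom P Φ ∧ ∀ x z v, ‖z‖ ≤ ρ → ‖v‖ ≤ 1 → ∀ t : ℝ, |t| ≤ 1 →
      ‖o.remC (J - 1 - n) t x z v‖ ≤ Φ x * ‖v‖ ^ (J - 1 - n) := by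
    have h1 : ∀ β : Fin 3, ∃ Φ : X → ℝ, Mom P Φ ∧ ∀ x z v, ‖z‖ ≤ ρ → ‖v‖ ≤ 1 →
        ‖remM (J - 1 - n) (o.c β) x z v‖ ≤ Φ x * ‖v‖ ^ (J - 1 - n) := fun β => remM_bd _ _
    choose Φ hΦ h2 using h1
    refine ⟨fun x => ∑ β, Φ β x, Mom.sum Finset.univ fun β _ => hΦ β,
      fun x z v hz hv t ht => ?_⟩
    rw [Finset.sum_mul]
    exact P10B_sum_t ht _ _ fun β => h2 β x z v hz hv
  obtain ⟨A₃, hA₃, a3⟩ := hremC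
  obtain ⟨B₃, hB₃, b3⟩ := o.PT_bd g n (J - 1 - n) LinearMap.id
  refine ⟨fun x => A₃ x * B₃ x, hA₃.mul hB₃, fun x z v r hz hv hr hr1 t ht => ?_⟩
  refine (mul_le_mul_of_nonneg_left (norm_mul_le (o.remC (J - 1 - n) t x z v)
    (Wp g x z r ((o.dat g).PT t n) v)) (by positivity)).trans ?_
  exact P10B_key hr hr1 (norm_nonneg _) (hA₃.nonneg x) (hB₃.nonneg x)
    (by omega) (a3 x z v hz hv t ht) (b3 x z v r hz hr t ht)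

theorem P10B_norm {r : ℝ} (hr : 0 < r) (n : ℕ) (A B C : En m) :
    ‖((√r : ℂ) ^ n) • (-A + (√r : ℂ) • B + (r : ℂ) • C)‖ ≤
      (√r) ^ n * ‖A‖ + (√r) ^ (n + 1) * ‖B‖ + (√r) ^ (n + 2) * ‖C‖ := by
  have hs : 0 < √r := Real.sqrt_pos.2 hr
  have hsr : √r * √r = r := Real.mul_self_sqrt hr.le
  have hsn : ‖((√r : ℝ) : ℂ)‖ = √r := by
    rw [Complex.norm_real, Real.norm_of_nonneg hs.le]
  have hnr : ‖(r : ℂ)‖ = √r * √r := by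
    rw [Complex.norm_real, Real.norm_of_nonneg hr.le, hsr]
  rw [norm_smul, norm_pow, hsn]
  calc (√r) ^ n * ‖-A + (√r : ℂ) • B + (r : ℂ) • C‖
      ≤ (√r) ^ n * (‖A‖ + √r * ‖B‖ + √r * √r * ‖C‖) := by
        apply mul_le_mul_of_nonneg_left _ (by positivity)
        refine (norm_add_le _ _).trans (add_le_add ((norm_add_le _ _).trans
          (add_le_add (norm_neg _).le ?_)) ?_)
        · rw [norm_smul, hsn]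
        · rw [norm_smul, hnr]
    _ = (√r) ^ n * ‖A‖ + (√r) ^ (n + 1) * ‖B‖ + (√r) ^ (n + 2) * ‖C‖ := by ring

theorem P10B_n (g : Geo (2 * m)) (o : Op P m ρ) (J n : ℕ) (hn : n ≤ J) :
    ∃ Φ : X → ℝ, Mom P Φ ∧ ∀ x z v r, ‖z‖ ≤ ρ → ‖v‖ ≤ 1 → 0 < r →
      r ≤ 1 → ∀ t : ℝ, |t| ≤ 1 → ‖((√r : ℂ) ^ n) •
    (- ∑ μ, ∑ ν, (rem (J + 1 - n) (hiF (ρ := ρ) (P := P) g μ ν) x z v) •
        Wp g x z r (hM (hR g) μ (hM (hR g) ν ((o.dat g).PT t n))) v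
      + (√r : ℂ) • ∑ μ, o.remB (J - n) t x z v μ * Wp g x z r (hM (hR g) μ ((o.dat g).PT t n)) v
      + (r : ℂ) • (o.remC (J - 1 - n) t x z v * Wp g x z r ((o.dat g).PT t n) v))‖ ≤
        Φ x * ((√r) ^ (J + 1) * gz m (rate P g ρ) v r) := by
  obtain ⟨Φ₁, hΦ₁, h1⟩ := P10B_t1 g o J n hn
  obtain ⟨Φ₂, hΦ₂, h2⟩ := P10B_t2 g o J n hn
  obtain ⟨Φ₃, hΦ₃, h3⟩ := P10B_t3 g o J n hn
  refine ⟨fun x => Φ₁ x + Φ₂ x + Φ₃ x, (hΦ₁.add hΦ₂).add hΦ₃,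
    fun x z v r hz hv hr hr1 t ht => ?_⟩
  refine (P10B_norm hr n _ _ _).trans ?_
  rw [add_mul, add_mul]
  exact add_le_add (add_le_add (h1 x z v r hz hv hr hr1 t ht) (h2 x z v r hz hv hr hr1 t ht))
    (h3 x z v r hz hv hr hr1 t ht)

/-- PROOF. Every term: `rem_bd`, `remM_bd` (with `|t| ≤ 1`), `‖v‖ = √r ‖η‖`:
`(√r)^n ‖v‖^(J+1-n) = (√r)^(J+1) ‖η‖^(J+1-n)`, `(√r)^n √r ‖v‖^(J-n) = (√r)^(J+1) ‖η‖^(J-n)`,
`(√r)^n r ‖v‖^(J-1-n) ≤ (√r)^(J+1) ‖η‖^(J-1-n)` (`n ≤ J`; for `n = J` use `r ≤ 1`); `PT_bd` with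
`T = hM μ ∘ hM ν`, `hM μ`, `id` and the exponent `k`. -/
theorem Er_bd (g : Geo (2 * m)) (o : Op P m ρ) (J : ℕ) :
    ∃ Φ : X → ℝ, Mom P Φ ∧ ∀ x z v r, ‖z‖ ≤ ρ → ‖v‖ ≤ 1 → 0 < r → r ≤ 1 → ∀ t : ℝ, |t| ≤ 1 →
      ‖o.Er g J t x z r v‖ ≤ Φ x * ((√r) ^ (J + 1) * gz m (rate P g ρ) v r) := by
  have h : ∀ n : Fin (J + 1), ∃ Φ : X → ℝ, Mom P Φ ∧ ∀ x z v r, ‖z‖ ≤ ρ → ‖v‖ ≤ 1 → 0 < r →
      r ≤ 1 → ∀ t : ℝ, |t| ≤ 1 → ‖((√r : ℂ) ^ (n : ℕ)) •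
    (- ∑ μ, ∑ ν, (rem (J + 1 - n) (hiF (ρ := ρ) (P := P) g μ ν) x z v) •
        Wp g x z r (hM (hR g) μ (hM (hR g) ν ((o.dat g).PT t n))) v
      + (√r : ℂ) • ∑ μ, o.remB (J - n) t x z v μ * Wp g x z r (hM (hR g) μ ((o.dat g).PT t n)) v
      + (r : ℂ) • (o.remC (J - 1 - n) t x z v * Wp g x z r ((o.dat g).PT t n) v))‖ ≤
        Φ x * ((√r) ^ (J + 1) * gz m (rate P g ρ) v r) :=
    fun n => P10B_n g o J n (Nat.lt_succ_iff.1 n.2)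
  choose Φ hΦ h using h
  refine ⟨fun x => ∑ n, Φ n x, Mom.sum Finset.univ fun n _ => hΦ n,
    fun x z v r hz hv hr hr1 t ht => ?_⟩
  unfold Er
  rw [Finset.sum_mul, Finset.sum_range]
  exact (norm_sum_le _ _).trans (Finset.sum_le_sum fun n _ => h n x z v r hz hv hr hr1 t ht)

/-- The first and zero order coefficients are bounded.
PROOF. `remM_bd` with `k = 0` (`remM 0 f = evF f`). -/
theorem bT_bd (o : Op P m ρ) : ∃ Φ : X → ℝ, Mom P Φ ∧ ∀ x z v, ‖z‖ ≤ ρ → ‖v‖ ≤ 1 →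
    ∀ t : ℝ, |t| ≤ 1 → (∀ μ, ‖o.bT t x z v μ‖ ≤ Φ x) ∧ ‖o.cT t x z v‖ ≤ Φ x := by
  have h1 : ∀ (f : Matrix (Ix m) (Ix m) (Fm P (2 * m) ρ)), ∃ Φ : X → ℝ, Mom P Φ ∧
      ∀ x z v, ‖z‖ ≤ ρ → ‖v‖ ≤ 1 → ‖evF x z v f‖ ≤ Φ x := by
    intro f
    obtain ⟨Φ, hΦ, h⟩ := remM_bd 0 f
    refine ⟨Φ, hΦ, fun x z v hz hv => ?_⟩
    have h2 := h x z v hz hv
    rw [pow_zero, mul_one] at h2
    rw [evF_eq 0, Finset.range_zero, Finset.sum_empty, zero_add]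
    exact h2
  choose Φ hΦ h2 using fun (β : Fin 3) (μ : Fin (2 * m)) => h1 (o.b β μ)
  choose Ψ hΨ h3 using fun (β : Fin 3) => h1 (o.c β)
  refine ⟨fun x => (∑ μ, ∑ β, Φ β μ x) + ∑ β, Ψ β x,
    (Mom.sum Finset.univ fun μ _ => Mom.sum Finset.univ fun β _ => hΦ β μ).add
    (Mom.sum Finset.univ fun β _ => hΨ β), fun x z v hz hv t ht => ⟨fun μ => ?_, ?_⟩⟩
  · refine (P10B_sum_t ht _ _ fun β => h2 β μ x z v hz hv).trans ?_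
    refine le_trans ?_ (le_add_of_nonneg_right (Finset.sum_nonneg fun β _ => (hΨ β).nonneg x))
    exact Finset.single_le_sum (f := fun μ => ∑ β, Φ β μ x)
      (fun μ _ => Finset.sum_nonneg fun β _ => (hΦ β μ).nonneg x) (Finset.mem_univ μ)
  · refine (P10B_sum_t ht _ _ fun β => h3 β x z v hz hv).trans ?_
    exact le_add_of_nonneg_left (Finset.sum_nonneg fun μ _ => Finset.sum_nonneg fun β _ =>
      (hΦ β μ).nonneg x)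

end Op

end Pool.Agent.Lib.MP_df705a_gt.RL
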