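import Mathlib

/-!
# Random line bundles: the definitions of the statement
-/

open scoped ContDiff Manifold
open MeasureTheory Bundle

noncomputable section

namespace Pool.Agent.Lib.MP_df705a_gt.RLS

/-- The space `ℝᴺ`. -/
abbrev V (N : ℕ) : Type := EuclideanSpace ℝ (Fin N)

/-- The smooth Riemannian metrics on the manifold `M` modelled on `E`. -/
abbrev Metric (E : Type*) [NormedAddCommGroup E] [NormedSpace ℝ E] (M : Type*) [TopologicalSpace M]
    [ChartedSpace E M] [IsManifold 𝓘(ℝ, E) ∞ M] :=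
  ContMDiffRiemannianMetric 𝓘(ℝ, E) ∞ E (fun x : M => TangentSpace 𝓘(ℝ, E) x)

/-- Real square matrices. -/
abbrev Mt (N : ℕ) : Type := Matrix (Fin N) (Fin N) ℝ

/-- The Lebesgue measure on `ℝᴺ`. -/
abbrev leb (N : ℕ) : Measure (V N) := volume

/-- The smooth functions on `ℝᴺ`. -/
abbrev Sm {N : ℕ} (f : V N → ℝ) : Prop := ContDiff ℝ ∞ f

/-- The partial derivative `∂_μ f`. -/
def pd {N : ℕ} (μ : Fin N) (f : V N → ℝ) (y : V N) : ℝ :=
  fderiv ℝ f y (EuclideanSpace.single μ 1)

/-- The norm of the derivative of order `l` of `f` at `y`. -/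
abbrev nD {N : ℕ} (l : ℕ) (f : V N → ℝ) (y : V N) : ℝ := ‖iteratedFDeriv ℝ l f y‖

/-- Smooth closed two-forms `1/2 ∑ Ω_μν dy_μ ∧ dy_ν` on `ℝᴺ`, given by their matrices. -/
structure IsClosed2 {N : ℕ} (Ω : V N → Mt N) : Prop where
  smooth : ∀ μ ν, Sm fun y => Ω y μ ν
  anti : ∀ y μ ν, Ω y ν μ = - Ω y μ ν
  closed : ∀ y l μ ν, pd l (fun y => Ω y μ ν) y + pd μ (fun y => Ω y ν l) y
    + pd ν (fun y => Ω y l μ) y = 0

/-- The Jacobian matrix. -/
def jac {N : ℕ} (Φ : V N → V N) (y : V N) : Mt N :=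
  Matrix.of fun ν μ => (fderiv ℝ Φ y (EuclideanSpace.single μ 1)) ν

/-- The pull-back of a two-form. -/
def pull2 {N : ℕ} (Φ : V N → V N) (Ω : V N → Mt N) (y : V N) : Mt N :=
  (jac Φ y).transpose * Ω (Φ y) * jac Φ y

/-- The top degree part of the product of `m` two-forms on `ℝ²ᵐ` (`2ᵐ` times the coefficient of their
wedge product). -/
def pf {m : ℕ} (Ω : Fin m → Mt (2 * m)) : ℝ :=
  ∑ σ : Equiv.Perm (Fin (2 * m)), ((Equiv.Perm.sign σ : ℤ) : ℝ) *
    ∏ r : Fin m, Ω r (σ ⟨2 * r, by omega⟩) (σ ⟨2 * r + 1, by omega⟩)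

/-- Smooth actions of the group `G` on `ℝᴺ`. -/
structure Act (G : Type*) [Group G] (N : ℕ) where
  act : G → V N → V N
  one : ∀ y, act 1 y = y
  mul : ∀ γ δ y, act (γ * δ) y = act γ (act δ y)
  smooth : ∀ γ, ContDiff ℝ ∞ (act γ)

/-- By the action `a` the group `G` is the group of the deck transformations of the covering
`ℝᴺ → M × Tᵏ`: every `γ ∈ G` satisfies `q ∘ γ = q` and `s ∘ γ = s + c` for an integer vector `c`, and
for two points `y, z` over the same point of `M × Tᵏ` there is exactly one `γ ∈ G` with `γ y = z`. -/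
structure Deck {N k : ℕ} {M : Type*} {G : Type*} [Group G] (a : Act G N) (q : V N → M)
    (s : V N → V k) : Prop where
  cover : ∀ γ, ∃ c : Fin k → ℤ, ∀ y, q (a.act γ y) = q y ∧ ∀ j, s (a.act γ y) j = s y j + c j
  trans : ∀ y z, q z = q y → (∀ j, ∃ c : ℤ, s z j = s y j + c) → ∃! γ, a.act γ y = z

/-- `F` is a bounded Borel set which is mapped bijectively onto `M × [0, 1)ᵏ` by `(q, s)`: a
fundamental domain of the covering `ℝᴺ → M × Tᵏ`. -/
structure FundSet {N k : ℕ} {M : Type*} (q : V N → M) (s : V N → V k) (F : Set (V N)) : Prop where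
  meas : MeasurableSet F
  bdd : Bornology.IsBounded F
  cube : ∀ y ∈ F, ∀ j, 0 ≤ s y j ∧ s y j < 1
  bij : ∀ (p : M) (b : V k), (∀ j, 0 ≤ b j ∧ b j < 1) → ∃! y, y ∈ F ∧ q y = p ∧ s y = b

/-- A random closed two-form `Ω` on the probability space `(X, P)`, equivariant for the actions of
`G` on `ℝᴺ` and on `X`; its derivatives of all orders are locally bounded by random variables with
all moments. -/
structure Rand {N : ℕ} {X : Type*} [MeasurableSpace X] (P : Measure X) {G : Type*} [Group G]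
    [MulAction G X] (a : Act G N) (Ω : X → V N → Mt N) : Prop where
  closed : ∀ x, IsClosed2 (Ω x)
  meas : ∀ μ ν, Measurable fun p : X × V N => Ω p.1 p.2 μ ν
  equi : ∀ γ : G, ∀ᵐ x ∂P, ∀ y, pull2 (a.act γ) (Ω (γ • x)) y = Ω x y
  mom : ∀ (r : ℝ) (k : ℕ), ∃ L : X → ℝ, Measurable L ∧ (∀ x, 1 ≤ L x) ∧
    (∀ p : ℕ, Integrable (fun x => L x ^ p) P) ∧
    ∀ x, ∀ j ≤ k, ∀ μ ν, ∀ y, ‖y‖ ≤ r → nD j (fun y => Ω x y μ ν) y ≤ L x

/-- Families `(h i)_{i ∈ I}` of closed two-forms on `ℝᴺ`, equivariant for the actions of `G`, such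
that the sums over `I` of the squares of all derivatives are locally bounded. -/
structure EqFam {N : ℕ} {G : Type*} [Group G] (a : Act G N) {I : Type*} [MulAction G I]
    (h : I → V N → Mt N) : Prop where
  closed : ∀ i, IsClosed2 (h i)
  equi : ∀ (γ : G) i y, pull2 (a.act γ) (h (γ • i)) y = h i y
  bdd : ∀ (l : ℕ) (R : ℝ), ∃ B : ℝ, ∀ y, ‖y‖ ≤ R → ∀ μ ν, ∀ S : Finset I,
    ∑ i ∈ S, nD l (fun y => h i y μ ν) y ^ 2 ≤ B

/-- (A) For every probability space `(X, P)` with a measure preserving action of the group `G` and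
all random closed two-forms `Ω 1, …, Ω m` on `X` the function `pf (Ω 1, …, Ω m)` is integrable on
`X × F`, with integral zero. -/
def RandomVanish.{u, v, w} {k m : ℕ} {M : Type v} {G : Type u} [Group G] (a : Act G (2 * m))
    (q : V (2 * m) → M) (s : V (2 * m) → V k) : Prop :=
  ∀ (X : Type w) [MeasurableSpace X] (P : Measure X) [IsProbabilityMeasure P] [MulAction G X],
    (∀ γ : G, MeasurePreserving (fun x : X => γ • x) P P) →
    ∀ Ω : Fin m → X → V (2 * m) → Mt (2 * m), (∀ r, Rand P a (Ω r)) → ∀ F, FundSet q s F →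
      Integrable (fun p : X × V (2 * m) => pf fun r => Ω r p.1 p.2)
        (P.prod ((leb (2 * m)).restrict F)) ∧
      ∫ x, (∫ y in F, pf (fun r => Ω r x y) ∂(leb (2 * m))) ∂P = 0

/-- (B) The factors `r` are distributed into the blocks `b r ∈ J`; `h r` is an equivariant family of
closed two-forms, with index set `I (b r)`, which is square summable with all derivatives. Every
index set is finite or belongs to at least two factors. Then the sum over all `(i j)` of
`pf (h 1 (i (b 1)), …, h m (i (b m)))` converges absolutely, and it has integral zero over `F`. -/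
def BlocksVanish.{u, v, w} {k m : ℕ} {M : Type v} {G : Type u} [Group G] (a : Act G (2 * m))
    (q : V (2 * m) → M) (s : V (2 * m) → V k) : Prop :=
  ∀ (J : Type) [Finite J] (b : Fin m → J), Function.Surjective b →
    ∀ (I : J → Type w) [∀ j, Countable (I j)] [∀ j, MulAction G (I j)],
    (∀ j, Finite (I j) ∨ ∃ r r', r ≠ r' ∧ b r = j ∧ b r' = j) →
    ∀ h : ∀ r, I (b r) → V (2 * m) → Mt (2 * m), (∀ r, EqFam a (h r)) →
    (∀ y, Summable fun i : ∀ j, I j => pf fun r => h r (i (b r)) y) ∧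
    ∀ F, FundSet q s F →
      IntegrableOn (fun y => ∑' i : ∀ j, I j, pf fun r => h r (i (b r)) y) F (leb (2 * m)) ∧
      ∫ y in F, (∑' i : ∀ j, I j, pf (fun r => h r (i (b r)) y)) ∂(leb (2 * m)) = 0

/-- The diffeomorphism of `ℝᴺ` given by an element of a product of groups which is isomorphic to
`G`. -/
abbrev Act.via {N : ℕ} {G : Type*} [Group G] {J : Type} {Γ : J → Type*} [∀ j, Group (Γ j)]
    (a : Act G N) (φ : (∀ j, Γ j) ≃* G) (γ : ∀ j, Γ j) : V N → V N := a.act (φ γ)

/-- (C) The group `G` is the product of the groups `Γ j`; the closed two-form `α r` is invariant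
under all factors except `Γ (b r)`, and square summable with all derivatives over the translates by
this factor; every factor belongs to at least two forms. Then `pf (α 1, …, α m)` is integrable on
`ℝ²ᵐ`, with integral zero. -/
def ProductVanish.{u, w} {m : ℕ} {G : Type u} [Group G] (a : Act G (2 * m)) : Prop :=
  ∀ (J : Type) [Fintype J] [DecidableEq J] (b : Fin m → J),
    (∀ j, ∃ r r', r ≠ r' ∧ b r = j ∧ b r' = j) →
    ∀ (Γ : J → Type w) [∀ j, Group (Γ j)] (φ : (∀ j, Γ j) ≃* G)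
      (α : Fin m → V (2 * m) → Mt (2 * m)), (∀ r, IsClosed2 (α r)) →
    (∀ r (γ : ∀ j, Γ j), γ (b r) = 1 → ∀ y, pull2 (a.via φ γ) (α r) y = α r y) →
    (∀ r (l : ℕ) (R : ℝ), ∃ B : ℝ, ∀ y, ‖y‖ ≤ R → ∀ μ ν, ∀ S : Finset (Γ (b r)),
      ∑ δ ∈ S, nD l (fun y => pull2 (a.via φ (Pi.mulSingle (b r) δ)) (α r) y μ ν) y ^ 2 ≤ B) →
    Integrable (fun y => pf fun r => α r y) (leb (2 * m)) ∧
      ∫ y, pf (fun r => α r y) ∂(leb (2 * m)) = 0

end Pool.Agent.Lib.MP_df705a_gt.RLS
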