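import Pool.Agent.Lib.MP_df705a_gt.Curv
import Pool.Agent.Lib.MP_df705a_gt.RL.St

/-!
# Random line bundles: the definitions of the spectral hypothesis
-/

open scoped ContDiff Manifold
open MeasureTheory Bundle Module

noncomputable section

namespace Pool.Agent.Lib.MP_df705a_gt.RLS

variable {E' : Type*} [NormedAddCommGroup E'] [NormedSpace ℝ E'] [FiniteDimensional ℝ E']

/-- The first part of `lift`: the coefficients of `q^* g`. -/
def pullCoeff {E : Type*} [NormedAddCommGroup E] [NormedSpace ℝ E] {M : Type*}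
    [TopologicalSpace M] [ChartedSpace E M] [IsManifold 𝓘(ℝ, E) ∞ M] (g : Metric E M)
    (q : E' → M) : Curv.Coeff E' := fun y i j =>
  g.inner (q y) (mfderiv 𝓘(ℝ, E') 𝓘(ℝ, E) q y (finBasis ℝ E' i))
    (mfderiv 𝓘(ℝ, E') 𝓘(ℝ, E) q y (finBasis ℝ E' j))

/-- The second part of `lift`: the coefficients of `|ds|²`. -/
def flatCoeff {F : Type*} [NormedAddCommGroup F] [InnerProductSpace ℝ F] (s : E' → F) :
    Curv.Coeff E' := fun y i j =>
  inner ℝ (fderiv ℝ s y (finBasis ℝ E' i)) (fderiv ℝ s y (finBasis ℝ E' j))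

/-- The metric `q^* g + |ds|²` on the covering, which is the lift of the product metric of
`M × Tᵏ`, in the linear coordinates of the basis `finBasis ℝ E'`. -/
def lift {E : Type*} [NormedAddCommGroup E] [NormedSpace ℝ E] {M : Type*}
    [TopologicalSpace M] [ChartedSpace E M] [IsManifold 𝓘(ℝ, E) ∞ M] {F : Type*}
    [NormedAddCommGroup F] [InnerProductSpace ℝ F] (g : Metric E M) (q : E' → M) (s : E' → F) :
    Curv.Coeff E' := fun y i j =>
  pullCoeff g q y i j + flatCoeff s y i j

/-- `|du|²` for the metric `h`. -/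
def grad2 (h : Curv.Coeff E') (u : E' → ℝ) (y : E') : ℝ :=
  ∑ i, ∑ j, (h y)⁻¹ i j * (Curv.pd i u y * Curv.pd j u y)

/-- The volume density of the metric `h` (up to a constant factor, which depends on the basis). -/
def dens (h : Curv.Coeff E') (y : E') : ℝ := √(h y).det

/-- The bottom of the spectrum of `-κΔ + scal` of the metric `h` is at least `σ`:
`σ ∫ u² dvol ≤ ∫ (κ |du|² + scal u²) dvol` for all smooth functions `u` with compact support;
`μ` is the Lebesgue measure. -/
def SpecGe [MeasurableSpace E'] (μ : Measure E') (h : Curv.Coeff E') (κ σ : ℝ) : Prop :=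
  ∀ u : E' → ℝ, ContDiff ℝ ∞ u → HasCompactSupport u →
    σ * ∫ y, u y ^ 2 * dens h y ∂μ ≤
      ∫ y, (κ * grad2 h u y + Curv.scal h y * u y ^ 2) * dens h y ∂μ

end Pool.Agent.Lib.MP_df705a_gt.RLS
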