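import Pool.Agent.Lib.MP_df705a_gt.Mg.G053
import Pool.Agent.Lib.MP_df705a_gt.RL.St2

/-!
# RL2, F5: the final theorem in terms of the definitions of `St.lean`
-/

open scoped Manifold ContDiff
open MeasureTheory Bundle

noncomputable section

namespace Pool.Agent.Lib.MP_df705a_gt.RLS

open Pool.Agent.Lib.MP_df705a_gt

universe u v w

variable {n k m : ℕ} {M : Type v} [TopologicalSpace M]
  [ChartedSpace (V n) M]
  [IsManifold 𝓘(ℝ, V n) ∞ M] {q : V (2 * m) → M}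
  {s : V (2 * m) → V k}
  {G : Type u} [Group G]

theorem IsClosed2.toRL {N : ℕ} {Ω : V N → Mt N}
    (h : IsClosed2 Ω) : RL.IsClosed2 Ω := ⟨h.smooth, h.anti, h.closed⟩

/-- The action. -/
def Act.toRL {N : ℕ} (a : Act G N) : RL.Act G N := ⟨a.act, a.one, a.mul, a.smooth⟩

theorem Deck.toRL {a : Act G (2 * m)} (h : Deck a q s) : RL.Deck a.toRL q s := ⟨h.cover, h.trans⟩

theorem FundSet.toRL {F : Set (V (2 * m))} (h : FundSet q s F) :
    RL.FundSet q s F := ⟨h.meas, h.bdd, h.cube, h.bij⟩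

theorem vanish [CompactSpace M] (H : Pin.StableCover (V n) q s) {a : Act G (2 * m)} (ha : Deck a q s)
    (ori : ∀ γ y, 0 < (jac (a.act γ) y).det)
    (g : Metric (V n) M)
    (hg : Twist.PosScal g ∨ ∃ σ > 0, SpecGe (leb _) (lift g q s) (4 * (2 * m) / (2 * m - 1)) σ) :
    (∃ F, FundSet q s F) ∧ RandomVanish.{u, v, w} a q s ∧ BlocksVanish.{u, v, w} a q s ∧
      ProductVanish.{u, w} a := by
  obtain ⟨F, hF⟩ := RL.exists_fundSet (n := n) H
  have hL : RL.LichG (n := n) g q s := by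
    rcases hg with hg | ⟨σ, hσ, hg⟩
    · exact RL.lichG_of_scal g hg H
    · exact RL.lichG_of_spec g H hσ hg
  obtain ⟨h1, h2, h3⟩ := RL.vanish_all.{u, v, w} (n := n) H ha.toRL ori g hL
  refine ⟨⟨F, hF.meas, hF.bdd, hF.cube, hF.bij⟩, ?_, ?_, ?_⟩
  · intro X _ P _ _ hP Ω hΩ F hF
    exact h1 X P hP Ω (fun r => ⟨fun x => ((hΩ r).closed x).toRL, (hΩ r).meas, (hΩ r).equi,
      (hΩ r).mom⟩) F hF.toRL
  · intro J _ b hb I _ _ hJ h hh
    obtain ⟨h4, h5⟩ := h2 J b hb I hJ h fun r => ⟨fun i => ((hh r).closed i).toRL, (hh r).equi,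
      (hh r).bdd⟩
    exact ⟨h4, fun F hF => h5 F hF.toRL⟩
  · intro J _ _ b hJ Γ _ φ α hα hinv hbd
    exact h3 J b hJ Γ φ α (fun r => (hα r).toRL) hinv hbd

end Pool.Agent.Lib.MP_df705a_gt.RLS
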